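import Pool.Agent.H91.QW.Rec

/-!
# Systems of quadratic equations, with weights
-/

set_option autoImplicit false

open CategoryTheory AlgebraicGeometry MvPolynomial Pool.Agent.Y116.UV Pool.Agent.Z125.UN
  Pool.Agent.W5h93.QD

namespace Pool.Agent.H91.QW

/-- The properties `P a`, `a = 0, 1, 2, …`, are closed under closed-open decompositions and products with
the affine line, they become weaker with `a`, and for the affine bundles of Jouanolou with fibre `𝔸^m`
the property `P a` of the total space implies the property `P (a + m)` of the base. -/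
structure Graded {R : Type} [CommRing R] (sep : Prop) (P : ℕ → Sch R → Prop) : Prop where
  up : ∀ a, Up sep (P a)
  mono : ∀ a X, P a X → P (a + 1) X
  jou : ∀ (a : ℕ) (A : Type) [CommRing A] [Algebra R A] [Algebra.FiniteType R A] (m : ℕ)
    (f : Fin (m + 1) → A) (U : Sch R) (j : U ⟶ aff R A), IsOpenImmersion j.left →
    Set.range j.left = {x : PrimeSpectrum A | ∃ l, f l ∉ x.asIdeal} → P a (aff R (Jou f)) →
      P (a + m) U

lemma Graded.mono' {R : Type} [CommRing R] {sep : Prop} {P : ℕ → Sch R → Prop}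
    (hP : Graded sep P) {X : Sch R} {a : ℕ} (h : P a X) : ∀ b, P (a + b) X
  | 0 => h
  | b + 1 => hP.mono _ _ (hP.mono' h b)

lemma of_jou {R : Type} [CommRing R] {sep : Prop} {P : ℕ → Sch R → Prop} (hP : Graded sep P)
    {A : Type} [CommRing A] [Algebra R A] [Algebra.FiniteType R A] {a m : ℕ} (f : Fin (m + 1) → A)
    (hA : P a (aff R A)) (hJ : P a (aff R (Jou f))) :
    P (a + m) (aff R (A ⧸ Ideal.span (Set.range f))) := by
  refine (hP.up _).closed (affMap (Ideal.Quotient.mkₐ R (Ideal.span (Set.range f))))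
    (opnMap (aff R A) (neOpen R f)) (ft_aff sep) ⟨closed_affMap _ (Ideal.Quotient.mkₐ_surjective R _),
      inferInstance, ?_⟩ (hP.mono' hA m)
    (hP.jou a A m f (opn (aff R A) (neOpen R f)) (opnMap (aff R A) (neOpen R f)) inferInstance
      (range_opnMap _ _) hJ)
  rw [range_affMap _ (Ideal.Quotient.mkₐ_surjective R _), range_opnMap]
  ext x
  change (∀ a, Ideal.Quotient.mk (Ideal.span (Set.range f)) a = 0 → a ∈ x.asIdeal) ↔
    ¬ ∃ l, f l ∉ x.asIdeal
  push Not
  constructor
  · intro h l
    exact h (f l) (Ideal.Quotient.eq_zero_iff_mem.mpr (Ideal.subset_span ⟨l, rfl⟩))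
  · intro h a ha
    rw [Ideal.Quotient.eq_zero_iff_mem] at ha
    refine (Ideal.span_le.mpr ?_ : Ideal.span (Set.range f) ≤ x.asIdeal) ha
    rintro _ ⟨l, rfl⟩
    exact h l

/-- the algebras of dimension at most `n` in which `2` is invertible -/
def Half {R : Type} [CommRing R] (n : ℕ) (A : Type) [CommRing A] [Algebra R A] : Prop :=
  ringKrullDim A ≤ n ∧ ∃ t : A, t + t = 1

lemma base_half {R : Type} [CommRing R] (n : ℕ) : Base (R := R) (fun A _ _ => Half (R := R) n A) where
  quot A _ _ hA I := ⟨(ringKrullDim_quotient_le I).trans hA.1, by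
    obtain ⟨t, ht⟩ := hA.2
    exact ⟨Ideal.Quotient.mk I t, by rw [← map_add, ht, map_one]⟩⟩
  away A _ _ hA e := ⟨(dim_away e).trans hA.1, by
    obtain ⟨t, ht⟩ := hA.2
    exact ⟨algebraMap A _ t, by rw [← map_add, ht, map_one]⟩⟩
  sq A _ _ hA u := ⟨(dim_sq u).trans hA.1, by
    obtain ⟨t, ht⟩ := hA.2
    exact ⟨algebraMap A _ t, by rw [← map_add, ht, map_one]⟩⟩

section

variable {R : Type} [CommRing R] [IsNoetherianRing R] {sep : Prop} {P : ℕ → Sch R → Prop}

/-- **Systems of quadratic equations.** -/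
theorem quadrics (hP : Graded sep P) (hD : DoubleCovers (P 0)) {n : ℕ}
    (hK : ∀ (A : Type) [CommRing A] [Algebra R A] [Algebra.FiniteType R A],
      ringKrullDim A ≤ n → P 0 (aff R A))
    {A : Type} [CommRing A] [Algebra R A] [Algebra.FiniteType R A] {s r : ℕ}
    (hA : ringKrullDim A ≤ s) (hn : s + r ≤ n) {t : A} (ht : t + t = 1)
    {V κ : Type} [Fintype V] [Finite κ] (b : κ → MvPolynomial V A)
    (q : Fin (r + 1) → MvPolynomial V A) (hb : ∀ j, (b j).totalDegree ≤ 1)
    (hq : ∀ l, (q l).totalDegree ≤ 2) :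
    P r (aff R (Sys A V (Set.range b ∪ Set.range q))) := by
  have hP0 := hP.up 0
  have htl := tl_all (K := fun A _ _ => Half (R := R) n A) hP0 hD (base_half n)
    (fun A _ _ _ hA => hK A hA.1) (fun A _ _ hA => hA.2)
  have hAn : ringKrullDim A ≤ n := hA.trans (by exact_mod_cast (by omega : s ≤ n))
  have hNA : IsNoetherianRing A := Algebra.FiniteType.isNoetherianRing R A
  -- the linear equations
  have hE : P 0 (aff R (Sys A V (Set.range b))) := by
    have h1 := htl (Fintype.card V) A ⟨hAn, t, ht⟩ V rfl κ b 0 hb (by rw [totalDegree_zero]; omega)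
    refine p_eq hP0 ?_ h1
    rw [Ideal.span_insert_zero]
  let f : Fin (r + 1) → Sys A V (Set.range b) := fun l => Ideal.Quotient.mk _ (q l)
  have hJ : P 0 (aff R (Sys (Sys A V (Set.range b)) (Fin (r + 1)) (JG f))) := by
    refine jou_all hP0 hE (fun e => ∃ p : MvPolynomial V A, p.totalDegree ≤ 2 ∧
      Ideal.Quotient.mk _ p = e) (r + 1) ?_ (r + 1) le_rfl (Fin (r + 1)) (Fintype.card_fin _) f
      fun l => ⟨q l, hq l, rfl⟩
    intro κ' _ hκ' g hg
    choose p hp hpg using hg
    have hg' : g = cls (Set.range b) p := funext fun o => (hpg o).symm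
    rw [hg']
    have : Algebra.FiniteType R (MvPolynomial κ' A) :=
      Algebra.FiniteType.trans (S := A) inferInstance inferInstance
    refine iso_alg hP0 (famE (R := R) (Set.range b) p).symm ?_
    have hdim : ringKrullDim (MvPolynomial κ' A) ≤ n := by
      rw [MvPolynomial.ringKrullDim_of_isNoetherianRing, Nat.card_eq_fintype_card]
      refine (add_le_add hA (show ((Fintype.card κ' : ℕ) : WithBot ℕ∞) ≤ (r : ℕ) from ?_)).trans ?_
      · exact_mod_cast (by omega : Fintype.card κ' ≤ r)
      · exact_mod_cast hn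
    have h2 := htl (Fintype.card V) (MvPolynomial κ' A) ⟨hdim, C t, by rw [← C_add, ht, C_1]⟩ V rfl κ
      (fun j => MvPolynomial.map (cc R A κ' : A →+* _) (b j)) (lc p R)
      (fun j => (deg_map _ _).trans (hb j)) (deg_lc p hp)
    refine p_eq hP0 ?_ h2
    congr 1
    rw [G', mapG, ← Set.range_comp]
    rfl
  have h3 := of_jou hP f hE hJ
  rw [zero_add] at h3
  have h4 : Ideal.span (Set.range f) =
      Ideal.map (Ideal.Quotient.mkₐ R (Ideal.span (Set.range b))) (Ideal.span (Set.range q)) := by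
    rw [Ideal.map_span, ← Set.range_comp]
    rfl
  rw [h4] at h3
  have h5 := iso_alg (hP.up r) (DoubleQuot.quotQuotEquivQuotSupₐ R (Ideal.span (Set.range b))
    (Ideal.span (Set.range q))) h3
  rw [← Ideal.span_union] at h5
  exact h5

end

end Pool.Agent.H91.QW
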