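import Pool.Agent.H91.QW.FGDefs
import Pool.Agent.H91.QW.Quad
import Pool.Agent.H91.L.W5h38_TW_Wk

/-!
# Étale motivic cohomology of arithmetic schemes, and systems of quadratic equations
-/

set_option autoImplicit false

open CategoryTheory AlgebraicGeometry MvPolynomial Pool.Agent.Y116.UV Pool.Agent.W5h68.SP
  Pool.Agent.Z125.UN Pool.Agent.W5h93.QD

namespace Pool.Agent.H91.QW

section cls

/-- the two algebra structures over the integers are equal -/
lemma conv {P : Sch ℤ → Prop} {A : Type} [CommRing A] (i1 i2 : Algebra ℤ A)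
    (h : P (@aff ℤ A _ _ i1)) : P (@aff ℤ A _ _ i2) := by
  rwa [Subsingleton.elim i2 i1]

variable (d : ℕ)

lemma up_built (a : ℕ) : Up True (Built d a) where
  iso hX e h := Built.iso hX e h
  total i j hX h hZ hU := Built.total i j hX h hZ hU
  opened i j hX h hZ hX' := Built.opened i j hX h hZ hX'
  closed i j hX h hX' hU := Built.closed i j hX h hX' hU
  poly A _ i hA h := by
    obtain rfl : i = Ring.toIntAlgebra A := Subsingleton.elim _ _
    have h1 := Built.line A (conv _ _ h)
    rcases Nat.eq_zero_or_pos a with rfl | ha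
    · exact conv _ _ h1
    · obtain ⟨b, rfl⟩ : ∃ b, a = b + 1 := ⟨a - 1, by omega⟩
      exact conv _ _ (Built.mono h1)

lemma graded_built : Graded True (Built d) where
  up := up_built d
  mono _ _ h := Built.mono h
  jou a A _ i hA m f U j hj hr h := by
    obtain rfl : i = Ring.toIntAlgebra A := Subsingleton.elim _ _
    exact Built.base A m f U ⟨j, hj, hr⟩ (conv _ _ h)

lemma doubleCovers_built (a : ℕ) : DoubleCovers (Built d a) := by
  intro A _ i hA u hu h
  obtain rfl : i = Ring.toIntAlgebra A := Subsingleton.elim _ _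
  exact conv _ _ (Built.cover A 2 u two_pos hu (conv _ _ h))

/-- **Families of systems of quadratic equations.** -/
theorem quadricFamilies_built : QuadricFamilies d (Built d) := by
  intro A _ hA s r h2 hs hn N m b q hb hq
  obtain ⟨u, hu⟩ := h2
  have ht : (↑u⁻¹ : A) + ↑u⁻¹ = 1 := by
    rw [← two_mul, ← hu, Units.mul_inv]
  have h1 := quadrics (graded_built d) (doubleCovers_built d 0) (fun B _ i hB hd => by
    obtain rfl : i = Ring.toIntAlgebra B := Subsingleton.elim _ _
    exact conv _ _ (Built.dim B hd)) hs hn ht b q hb hq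
  exact conv _ _ h1

/-- Torus schemes. -/
theorem torus_built {X : Sch ℤ} (hX : Pool.Agent.W5h38.TV.Built d X) : Built d 0 X := by
  have hP : Pool.Agent.W5h38.TW.Wk True (Built d 0) :=
    { iso := (up_built d 0).iso
      total := (up_built d 0).total
      opened := (up_built d 0).opened
      closed := (up_built d 0).closed
      poly := (up_built d 0).poly }
  exact Pool.Agent.W5h38.TW.built hP (fun A _ i hA h => by
    obtain rfl : i = Ring.toIntAlgebra A := Subsingleton.elim _ _
    exact conv _ _ (Built.dim A h)) hX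

/-- schemes of dimension at most `d` -/
lemma built_of_dim {X : Sch ℤ} (hX : FT True X) (hn : topologicalKrullDim X.left ≤ d) :
    Built d 0 X := by
  refine of_affine' (P := fun X => topologicalKrullDim X.left ≤ d → Built d 0 X) (sep := True)
    ?_ ?_ ?_ X hX hn
  · intro X Y hX e hPX hY
    refine Built.iso hX e (hPX ?_)
    obtain ⟨e⟩ := e
    let f := (Over.forget _).mapIso e
    exact (Topology.IsInducing.topologicalKrullDim_le
      (Scheme.homeoOfIso f).isInducing).trans hY
  · intro Z X U i j hX ht hZ hU hn
    refine Built.total i j hX ht (hZ ?_) (hU ?_)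
    · have h1 := (have := ht.closed; i.left.isClosedEmbedding.isInducing)
      exact h1.topologicalKrullDim_le.trans hn
    · have h1 := (have := ht.opened; j.left.isOpenEmbedding.isInducing)
      exact h1.topologicalKrullDim_le.trans hn
  · intro A _ i hA hn
    obtain rfl : i = Ring.toIntAlgebra A := Subsingleton.elim _ _
    rw [show topologicalKrullDim (aff ℤ A).left = ringKrullDim A from
      PrimeSpectrum.topologicalKrullDim_eq_ringKrullDim A] at hn
    exact Built.dim A hn

end cls

section fg

/-- the middle term of an exact sequence -/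
lemma fg_mid {A B C : ModuleCat.{0} ℤ} (f : A ⟶ B) (g : B ⟶ C)
    (h : LinearMap.range f.hom = LinearMap.ker g.hom) (hA : Module.Finite ℤ A)
    (hC : Module.Finite ℤ C) : Module.Finite ℤ B := by
  have h1 : IsNoetherian ℤ A := isNoetherian_of_isNoetherianRing_of_finite ℤ A
  have h2 : IsNoetherian ℤ C := isNoetherian_of_isNoetherianRing_of_finite ℤ C
  have h3 : IsNoetherian ℤ B := isNoetherian_of_range_eq_ker f.hom g.hom h
  infer_instance

lemma fg_iso {A B : ModuleCat.{0} ℤ} (e : A ≅ B) (h : Module.Finite ℤ A) : Module.Finite ℤ B :=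
  Module.Finite.equiv e.toLinearEquiv

/-- a submodule -/
lemma fg_inj {A B : ModuleCat.{0} ℤ} (f : A ⟶ B) (hf : Function.Injective f.hom)
    (h : Module.Finite ℤ B) : Module.Finite ℤ A :=
  Module.Finite.of_injective f.hom hf

/-- Finite generation descends along coverings. -/
lemma finite_of_transfer {E : Type} [CommRing E] [IsNoetherianRing E] {M N : ModuleCat.{0} E}
    (s : M ⟶ N) (r : N ⟶ M) (d : E) (h : ∀ x, r.hom (s.hom x) = d • x)
    (ht : (LinearMap.ker (LinearMap.lsmul E M d)).FG)
    (hN : Module.Finite E N) : Module.Finite E M := by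
  have hN' : IsNoetherian E N := isNoetherian_of_isNoetherianRing_of_finite E N
  have ht0 : Module.Finite E (LinearMap.ker (LinearMap.lsmul E M d)) := Module.Finite.iff_fg.mpr ht
  have ht' : IsNoetherian E (LinearMap.ker (LinearMap.lsmul E M d)) :=
    isNoetherian_of_isNoetherianRing_of_finite E _
  have h1 : LinearMap.ker s.hom ≤ LinearMap.ker (LinearMap.lsmul E M d) := by
    intro x hx
    rw [LinearMap.mem_ker] at hx ⊢
    have h2 := h x
    rw [hx, map_zero] at h2
    exact h2.symm
  have h2 : IsNoetherian E (LinearMap.ker s.hom) := isNoetherian_of_le h1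
  have h3 : IsNoetherian E (LinearMap.range s.hom) := inferInstance
  have h4 : IsNoetherian E M := isNoetherian_of_range_eq_ker (LinearMap.ker s.hom).subtype
    s.hom.rangeRestrict (by rw [Submodule.range_subtype, LinearMap.ker_rangeRestrict])
  exact inferInstance

variable {H : ℤ → ℤ → Sch ℤ → ModuleCat.{0} ℤ} (hH : IsEtaleMotivic H) {d : ℕ}

include hH

/-- **Finite generation for the classes.** -/
theorem built_fg (h : FGDim H d) {a : ℕ} {X : Sch ℤ} (hX : Built d a X) : FGBelow H a X := by
  induction hX with
  | dim A hA =>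
    refine h _ (ft_aff True) ?_
    rw [show topologicalKrullDim (aff ℤ A).left = ringKrullDim A from
      PrimeSpectrum.topologicalKrullDim_eq_ringKrullDim A]
    exact hA
  | mono _ ih => exact fun n hn => ih n (by push_cast at hn; omega)
  | iso hX e _ ih =>
    intro n hn i
    obtain ⟨e'⟩ := (hH.localization n (by omega)).iso hX e i
    exact fg_iso e' (ih n hn i)
  | total i j hX ht _ _ hZ hU =>
    intro n hn l
    obtain ⟨f, g, h, h1, h2, h3⟩ := (hH.localization n (by omega)).les i j hX ht
    exact fg_mid (f l) (g l) (h1 l) (hZ n hn l) (hU n hn l)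
  | opened i j hX ht _ _ hZ hX' =>
    intro n hn l
    obtain ⟨f, g, h, h1, h2, h3⟩ := (hH.localization n (by omega)).les i j hX ht
    exact fg_mid (g l) (h l) (h2 l) (hX' n hn l) (hZ n hn (l + 1))
  | closed i j hX ht _ _ hX' hU =>
    intro n hn l
    obtain ⟨f, g, h, h1, h2, h3⟩ := (hH.localization n (by omega)).les i j hX ht
    have h4 := fg_mid (h (l - 1)) (f (l - 1 + 1)) (h3 (l - 1)) (hU n hn (l - 1))
      (hX' n hn (l - 1 + 1))
    rwa [sub_add_cancel] at h4
  | @line a A _ _ _ ih =>
    intro n hn l
    obtain ⟨e⟩ := (hH.bundles n (by omega)).line l A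
    exact fg_iso e.symm (ih (n - 1) (by omega) (l + 2))
  | @bundle a A _ _ m f U hU _ ih =>
    intro n hn l
    obtain ⟨e⟩ := (hH.bundles n (by omega)).bundle l A m f U hU
    exact fg_iso e.symm (ih (n - m) (by omega) (l + 2 * m))
  | @base a A _ _ m f U hU _ ih =>
    intro n hn l
    have hn' : n + m < -(a : ℤ) := by push_cast at hn; omega
    obtain ⟨e⟩ := (hH.bundles (n + m) (by omega)).bundle (l - 2 * m) A m f U hU
    have h1 := fg_iso e (ih (n + m) hn' (l - 2 * m))
    rwa [add_sub_cancel_right, sub_add_cancel] at h1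
  | torus A _ ih =>
    intro n hn l
    obtain ⟨s, r, hs⟩ := hH.torus n (by omega) l A
    refine fg_inj s ?_ (ih n hn (l - 1))
    refine Function.LeftInverse.injective (g := r.hom) fun x => (hs x).trans ?_
    exact one_smul ℤ x
  | cover A e u he hu _ ih =>
    intro n hn l
    have : Algebra.FiniteType ℤ A := inferInstance
    obtain ⟨s, r, hs⟩ := hH.covering n (by omega) l A e u he hu
    refine finite_of_transfer s r (e : ℤ) (fun x => (hs x).trans ?_)
      (hH.torsion n (by omega) _ (ft_aff True) l e he) (ih n hn l)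
    exact (int_smul_eq_zsmul (H n l (aff ℤ A)).isModule _ _).symm

/-- **The equivalence.** -/
theorem fgDim_iff : FGDim H d ↔ ∀ (a : ℕ) (X : Sch ℤ), Built d a X → FGBelow H a X :=
  ⟨fun h _ _ hX => built_fg hH h hX, fun h X hX hn => h 0 X (built_of_dim d hX hn)⟩

/-- the known case -/
theorem fgDim_one : FGDim H 1 := fun X hX hd n hn =>
  hH.low n (by simpa using hn) X hX (by exact_mod_cast hd)

end fg

end Pool.Agent.H91.QW
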