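import Pool.Agent.H89.L.Y116_UV_Defs
import Pool.Agent.H79.L.W5h68_SP_CycDefs
import Pool.Agent.H89.L.W5h38_TV_Defs

/-!
# Étale motivic cohomology of arithmetic schemes, and systems of quadratic equations: definitions
-/

set_option autoImplicit false

open CategoryTheory AlgebraicGeometry MvPolynomial Pool.Agent.Y116.UV Pool.Agent.W5h68.SP

namespace Pool.Agent.H91.QW

/-- The spectrum of `A[w_0, …, w_m] / (∑ f_l w_l - 1)`. -/
noncomputable abbrev jouZ {A : Type} [CommRing A] {m : ℕ} (f : Fin m → A) : Sch ℤ := aff ℤ (Jou f)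

/-- The covering `Spec A[s] / (s ^ d - u)` of `Spec A`. -/
noncomputable abbrev cycZ (A : Type) [CommRing A] (d : ℕ) (u : A) : Sch ℤ := aff ℤ (Cyc A d u)

/-- The product `𝔾_m × Spec A`. -/
noncomputable abbrev torZ (A : Type) [CommRing A] : Sch ℤ := aff ℤ (LaurentPolynomial A)

/-- The product `𝔸^1 × Spec A`. -/
noncomputable abbrev lineZ (A : Type) [CommRing A] : Sch ℤ := aff ℤ (Polynomial A)

/-- `U` is the complement of the closed subscheme `f = 0` of `Spec A`. -/
def IsCompl {A : Type} [CommRing A] {m : ℕ} (f : Fin m → A) (U : Sch ℤ) : Prop :=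
  ∃ j : U ⟶ aff ℤ A, IsOpenImmersion j.left ∧
    Set.range j.left = {x : PrimeSpectrum A | ∃ l, f l ∉ x.asIdeal}

/-- There is a long exact sequence `⋯ → H^i(Z) → H^i(X) → H^i(U) → H^{i+1}(Z) → ⋯`. -/
def HasLes (H : ℤ → Sch ℤ → ModuleCat.{0} ℤ) (Z X U : Sch ℤ) : Prop :=
  ∃ (f : ∀ i, H i Z ⟶ H i X) (g : ∀ i, H i X ⟶ H i U) (h : ∀ i, H i U ⟶ H (i + 1) Z),
    (∀ i, LinearMap.range (f i).hom = LinearMap.ker (g i).hom) ∧
    (∀ i, LinearMap.range (g i).hom = LinearMap.ker (h i).hom) ∧
    ∀ i, LinearMap.range (h i).hom = LinearMap.ker (f (i + 1)).hom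

/-- Invariance under isomorphisms, and the long exact localization sequences
`⋯ → H^i(Z) → H^i(X) → H^i(U) → H^{i+1}(Z) → ⋯` for a closed subscheme `Z` of `X` and its complement
`U`. -/
structure HasLocalization (H : ℤ → Sch ℤ → ModuleCat.{0} ℤ) : Prop where
  iso : ∀ {X Y : Sch ℤ}, FT True X → Nonempty (X ≅ Y) → ∀ i, Nonempty (H i X ≅ H i Y)
  les : ∀ {Z X U : Sch ℤ} (i : Z ⟶ X) (j : U ⟶ X), FT True X → IsTriple i j → HasLes H Z X U

/-- There are homomorphisms `M → N → M` with the composition `d`. -/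
def IsFactor (d : ℤ) (M N : ModuleCat.{0} ℤ) : Prop :=
  ∃ (s : M ⟶ N) (r : N ⟶ M), ∀ x, r.hom (s.hom x) = d • x

/-- For affine `X` the group `H^i(X)` is a direct factor of `H^{i-1}(X × 𝔾_m)` (the localization
sequence of `X × 0` in `X × 𝔸^1` is split by the product with the coordinate). -/
def HasTorusFactors (H : ℤ → Sch ℤ → ModuleCat.{0} ℤ) : Prop :=
  ∀ (i : ℤ) (A : Type) [CommRing A] [Algebra.FiniteType ℤ A],
    IsFactor 1 (H i (aff ℤ A)) (H (i - 1) (torZ A))

/-- For the finite flat covering `Spec A[s] / (s ^ d - u) → Spec A` of degree `d`, `u` a unit, the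
composition of the flat pull-back and the push-forward is the multiplication by `d`. -/
def HasTransfers (H : ℤ → Sch ℤ → ModuleCat.{0} ℤ) : Prop :=
  ∀ (i : ℤ) (A : Type) [CommRing A] [Algebra.FiniteType ℤ A] (d : ℕ) (u : A), 0 < d → IsUnit u →
    IsFactor d (H i (aff ℤ A)) (H i (cycZ A d u))

/-- The kernels of the multiplications by integers `d ≥ 1` on `H^i(X)` are finitely generated. -/
def TorsionFG (H : ℤ → Sch ℤ → ModuleCat.{0} ℤ) : Prop :=
  ∀ X : Sch ℤ, FT True X → ∀ (i : ℤ) (d : ℕ), 0 < d →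
    (LinearMap.ker (LinearMap.lsmul ℤ (H i X) (d : ℤ))).FG

/-- The groups are finitely generated if the dimension of `X` is at most `1`. -/
def FGOne (H : ℤ → Sch ℤ → ModuleCat.{0} ℤ) : Prop :=
  ∀ X : Sch ℤ, FT True X → topologicalKrullDim X.left ≤ 1 → ∀ i, Module.Finite ℤ (H i X)

/-- Homotopy invariance for affine bundles: `H^i(J, ℤ^c(n)) = H^{i+2m}(U, ℤ^c(n-m))` for the affine bundle
`J = Spec A[w_0, …, w_m] / (∑ f_l w_l - 1) → U` with fibre `𝔸^m` over the complement `U` of `f = 0` in
`Spec A`, and for `J = 𝔸^1 × Spec A`, `U = Spec A`, `m = 1`. -/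
structure HasBundles (H : ℤ → ℤ → Sch ℤ → ModuleCat.{0} ℤ) (n : ℤ) : Prop where
  line : ∀ (i : ℤ) (A : Type) [CommRing A] [Algebra.FiniteType ℤ A],
    Nonempty (H n i (lineZ A) ≅ H (n - 1) (i + 2) (aff ℤ A))
  bundle : ∀ (i : ℤ) (A : Type) [CommRing A] [Algebra.FiniteType ℤ A] (m : ℕ)
    (f : Fin (m + 1) → A) (U : Sch ℤ), IsCompl f U →
    Nonempty (H n i (jouZ f) ≅ H (n - m) (i + 2 * m) U)

/-- The properties of the groups `H n i X = H^i(X_et, ℤ^c(n))`, `n < 0`, of the arithmetic schemes `X`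
(the separated schemes of finite type over `ℤ`) which are used: localization sequences, homotopy
invariance, `𝔾_m`-factors, transfers, finitely generated `d`-torsion (it is a quotient of
`H^{i-1}(X_et, ℤ/d^c(n))`, which is finite as `n < 0`), and the known case of the schemes of dimension at
most `1` (number rings, curves over finite fields, points). -/
structure IsEtaleMotivic (H : ℤ → ℤ → Sch ℤ → ModuleCat.{0} ℤ) : Prop where
  localization : ∀ n < 0, HasLocalization (H n)
  bundles : ∀ n < 0, HasBundles H n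
  torus : ∀ n < 0, HasTorusFactors (H n)
  covering : ∀ n < 0, HasTransfers (H n)
  torsion : ∀ n < 0, TorsionFG (H n)
  low : ∀ n < 0, FGOne (H n)

/-- All groups `H^i(X_et, ℤ^c(n))`, `n < - a`, `i ∈ ℤ`, are finitely generated. For `a = 0` these are the
groups of all weights `n < 0`. -/
def FGBelow (H : ℤ → ℤ → Sch ℤ → ModuleCat.{0} ℤ) (a : ℕ) (X : Sch ℤ) : Prop :=
  ∀ n : ℤ, n < -a → ∀ i, Module.Finite ℤ (H n i X)

/-- All groups of all weights `n < 0` are finitely generated for the arithmetic schemes of dimension at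
most `d`. -/
def FGDim (H : ℤ → ℤ → Sch ℤ → ModuleCat.{0} ℤ) (d : ℕ) : Prop :=
  ∀ X : Sch ℤ, FT True X → topologicalKrullDim X.left ≤ d → FGBelow H 0 X

/-- The classes `Built d a`, `a = 0, 1, 2, …`, of arithmetic schemes, the smallest ones such that
`Built d 0` contains the affine schemes of dimension at most `d`, `Built d a` is contained in
`Built d (a + 1)`, each class is closed under isomorphisms and

* closed-open decompositions: with two of the schemes `Z`, `X`, `U = X - Z` also the third is in the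
  class,
* descent along cyclic coverings: if `Spec A[s] / (s ^ e - u)`, `u` a unit, is in the class, so is
  `Spec A`,
* division by `𝔾_m`: if `𝔾_m × Spec A` is in the class, so is `Spec A`;

and for the affine bundles `J = Spec A[w_0, …, w_m] / (∑ f_l w_l - 1) → U` over the complement `U` of
`f = 0` in `Spec A`: if `U` is in `Built d a`, then `J` is in `Built d (max (a - m) 0)`; if `J` is in
`Built d a`, then `U` is in `Built d (a + m)`. The same for the products with the affine line. -/
inductive Built (d : ℕ) : ℕ → Sch ℤ → Prop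
  | dim (A : Type) [CommRing A] [Algebra.FiniteType ℤ A] (h : ringKrullDim A ≤ d) :
      Built d 0 (aff ℤ A)
  | mono {a : ℕ} {X : Sch ℤ} (h : Built d a X) : Built d (a + 1) X
  | iso {a : ℕ} {X Y : Sch ℤ} (hX : FT True X) (e : Nonempty (X ≅ Y)) (h : Built d a X) :
      Built d a Y
  | total {a : ℕ} {Z X U : Sch ℤ} (i : Z ⟶ X) (j : U ⟶ X) (hX : FT True X) (ht : IsTriple i j)
      (hZ : Built d a Z) (hU : Built d a U) : Built d a X
  | opened {a : ℕ} {Z X U : Sch ℤ} (i : Z ⟶ X) (j : U ⟶ X) (hX : FT True X) (ht : IsTriple i j)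
      (hZ : Built d a Z) (h : Built d a X) : Built d a U
  | closed {a : ℕ} {Z X U : Sch ℤ} (i : Z ⟶ X) (j : U ⟶ X) (hX : FT True X) (ht : IsTriple i j)
      (h : Built d a X) (hU : Built d a U) : Built d a Z
  | line {a : ℕ} (A : Type) [CommRing A] [Algebra.FiniteType ℤ A] (h : Built d a (aff ℤ A)) :
      Built d (a - 1) (lineZ A)
  | bundle {a : ℕ} (A : Type) [CommRing A] [Algebra.FiniteType ℤ A] (m : ℕ) (f : Fin (m + 1) → A)
      (U : Sch ℤ) (hU : IsCompl f U) (h : Built d a U) : Built d (a - m) (jouZ f)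
  | base {a : ℕ} (A : Type) [CommRing A] [Algebra.FiniteType ℤ A] (m : ℕ) (f : Fin (m + 1) → A)
      (U : Sch ℤ) (hU : IsCompl f U) (h : Built d a (jouZ f)) : Built d (a + m) U
  | torus {a : ℕ} (A : Type) [CommRing A] [Algebra.FiniteType ℤ A]
      (h : Built d a (torZ A)) : Built d a (aff ℤ A)
  | cover {a : ℕ} (A : Type) [CommRing A] [Algebra.FiniteType ℤ A] (e : ℕ) (u : A) (he : 0 < e)
      (hu : IsUnit u) (h : Built d a (cycZ A e u)) : Built d a (aff ℤ A)

/-- `P r` is true for the subschemes of the affine spaces over `Spec A` given by `r + 1` equations of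
degree at most two and any number of equations of degree at most one in the coordinates of the affine
space, for all rings `A` of finite type over `ℤ` in which `2` is invertible, of dimension at most `s`,
where `s + r ≤ d`. -/
def QuadricFamilies (d : ℕ) (P : ℕ → Sch ℤ → Prop) : Prop :=
  ∀ (A : Type) [CommRing A] [Algebra.FiniteType ℤ A] (s r : ℕ), IsUnit (2 : A) →
    ringKrullDim A ≤ s → s + r ≤ d → ∀ (N m : ℕ) (b : Fin m → MvPolynomial (Fin N) A)
    (q : Fin (r + 1) → MvPolynomial (Fin N) A), (∀ j, (b j).totalDegree ≤ 1) →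
    (∀ l, (q l).totalDegree ≤ 2) →
    P r (aff ℤ (MvPolynomial (Fin N) A ⧸ Ideal.span (Set.range b ∪ Set.range q)))

end Pool.Agent.H91.QW
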