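import Pool.Agent.H91.QW.Up

/-!
# Systems of quadratic equations, for properties closed under closed-open decompositions and products with
the affine line
-/

set_option autoImplicit false
set_option linter.unusedSectionVars false

open CategoryTheory AlgebraicGeometry MvPolynomial Pool.Agent.Y116.UV Pool.Agent.Z125.UN
  Pool.Agent.W5h93.QD

namespace Pool.Agent.H91.QW

section lem

variable {R : Type} [CommRing R] {sep : Prop} {P : Sch R → Prop} (hP : Up sep P)
  {A : Type} [CommRing A] [Algebra R A] [Algebra.FiniteType R A]

include hP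

/-- the decomposition of the base -/
lemma p_split {V : Type} [Finite V] (G : Set (MvPolynomial V A)) (e : A)
    (h1 : P (aff R (Sys (A ⧸ Ideal.span {e}) V
      (mapG (Ideal.Quotient.mkₐ R (Ideal.span {e}) : A →+* _) G))))
    (h2 : P (aff R (Sys (Localization.Away e) V (mapG (locA (R := R) e : A →+* _) G)))) :
    P (aff R (Sys A V G)) := by
  have := ft_away (R := R) e
  have := ft_quot (R := R) (Ideal.span {e})
  exact ring_total hP (cS R G e) (iso_alg hP (cloS G e).symm h1)
    (iso_alg hP (opnS G e).symm h2)

/-- equations which only involve the base -/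
lemma p_base {V : Type} [Finite V] (I : Ideal A) (G : Set (MvPolynomial V A))
    (h : P (aff R (Sys (A ⧸ I) V (mapG (Ideal.Quotient.mkₐ R I : A →+* _) G)))) :
    P (aff R (Sys A V (addI I G))) := by
  have := ft_quot (R := R) I
  exact iso_alg hP (cloI I G).symm h

lemma p_eq {V : Type} [Finite V] {G G' : Set (MvPolynomial V A)}
    (h : Ideal.span G = Ideal.span G') (h1 : P (aff R (Sys A V G))) : P (aff R (Sys A V G')) :=
  iso_alg hP (eqE h) h1

lemma p_empty' {V : Type} [Fintype V] (h : P (aff R A)) :
    P (aff R (Sys A V (∅ : Set (MvPolynomial V A)))) := by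
  have : Algebra.FiniteType R (MvPolynomial V A) :=
    Algebra.FiniteType.trans (S := A) inferInstance inferInstance
  exact iso_alg hP (emptyE V).symm (p_poly hP V h)

/-- only equations in the base -/
lemma p_const {V : Type} [Fintype V] (I : Ideal A) (h : P (aff R (A ⧸ I))) :
    P (aff R (Sys A V (C '' (I : Set A)))) := by
  have := ft_quot (R := R) I
  have h1 : P (aff R (Sys A V (addI I (∅ : Set (MvPolynomial V A))))) := by
    apply p_base hP
    have h2 := p_empty' hP (V := V) h
    apply p_eq hP _ h2
    rw [mapG, Set.image_empty]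
  apply p_eq hP _ h1
  rw [addI, Set.union_empty]

lemma p_re {V V' : Type} [Finite V] [Finite V'] (φ : MvPolynomial V A ≃ₐ[A] MvPolynomial V' A)
    {G : Set (MvPolynomial V A)} (h : P (aff R (Sys A V' (φ '' G)))) : P (aff R (Sys A V G)) :=
  iso_alg hP (autE φ G).symm h

/-- a linear equation in one variable -/
lemma p_lin1 (β γ : A) (h0 : P (aff R A)) (h1 : P (aff R (A ⧸ Ideal.span {β})))
    (h2 : P (aff R ((A ⧸ Ideal.span {β}) ⧸ Ideal.span {Ideal.Quotient.mk (Ideal.span {β}) γ}))) :
    P (aff R (Sys A PUnit.{1} (lin1 β γ))) := by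
  have := ft_away (R := R) β
  have := ft_quot (R := R) (Ideal.span {β})
  have hb : Ideal.Quotient.mkₐ R (Ideal.span {β}) β = 0 :=
    Ideal.Quotient.eq_zero_iff_mem.mpr (Ideal.mem_span_singleton_self β)
  apply p_split hP (lin1 β γ) β
  · have h3 := p_const hP (V := PUnit.{1}) _ h2
    apply p_eq hP _ h3
    rw [mapG, lin1, Set.image_singleton, map_add, map_mul, map_C, map_C, map_X]
    change _ = Ideal.span {C (Ideal.Quotient.mkₐ R (Ideal.span {β}) β) * X PUnit.unit +
      C (Ideal.Quotient.mk (Ideal.span {β}) γ)}
    rw [hb, C_0, zero_mul, zero_add]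
    apply le_antisymm
    · rw [Ideal.span_le]
      rintro _ ⟨a, ha, rfl⟩
      obtain ⟨c, rfl⟩ := Ideal.mem_span_singleton'.mp ha
      rw [C_mul]
      exact Ideal.mul_mem_left _ _ (Ideal.mem_span_singleton_self _)
    · rw [Ideal.span_singleton_le_iff_mem]
      exact Ideal.subset_span ⟨_, Ideal.mem_span_singleton_self _, rfl⟩
  · have h3 : P (aff R (Localization.Away β)) := ring_open hP β h1 h0
    obtain ⟨u, hu⟩ := IsLocalization.Away.algebraMap_isUnit (S := Localization.Away β) β
    have h4 : (↑u⁻¹ : Localization.Away β) * algebraMap A (Localization.Away β) β = 1 := by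
      rw [← hu, Units.inv_mul]
    have h5 := iso_alg hP (unitE (R := R) (↑u⁻¹ : Localization.Away β) h4
      (algebraMap A (Localization.Away β) γ)).symm h3
    have h6 : mapG (locA (R := R) β : A →+* _) (lin1 β γ) =
        lin1 (algebraMap A (Localization.Away β) β) (algebraMap A (Localization.Away β) γ) := by
      rw [mapG, lin1, Set.image_singleton, map_add, map_mul, map_C, map_C, map_X]
      rfl
    rw [h6]
    exact h5

/-- an equation which is linear in one variable -/
lemma p_opt {W : Type} [Fintype W] (b c : MvPolynomial W A) (hA : P (aff R A))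
    (h1 : P (aff R (Sys A W {b}))) (h2 : P (aff R (Sys A W {b, c}))) :
    P (aff R (Sys A (Option W) {rename some b * X none + rename some c})) := by
  have : Algebra.FiniteType R (MvPolynomial W A) :=
    Algebra.FiniteType.trans (S := A) inferInstance inferInstance
  have h3 : optP A W '' {rename some b * X none + rename some c} = lin1 b c := by
    rw [Set.image_singleton, map_add, map_mul, optP_none, optP_rename, optP_rename]
    rfl
  have h4 : P (aff R (Sys (MvPolynomial W A) PUnit.{1} (lin1 b c))) := by
    apply p_lin1 hP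
    · exact p_poly hP W hA
    · exact h1
    · apply quot_mk hP
      have h5 : Ideal.span {b, c} = Ideal.span {b} ⊔ Ideal.span {c} := Ideal.span_insert _ _
      exact iso_alg hP (Ideal.quotientEquivAlgOfEq R h5) h2
  rw [← h3] at h4
  exact iso_alg hP (optE _).symm h4

end lem

section

variable {R : Type} [CommRing R] {sep : Prop} {P : Sch R → Prop} (hP : Up sep P)

variable {K : ∀ (A : Type) [CommRing A] [Algebra R A], Prop}

include hP

/-- one linear equation -/
lemma tl_one {N : ℕ} (h : TL K P N) (A : Type) [CommRing A] [Algebra R A] [Algebra.FiniteType R A]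
    (hA : K A) (V : Type) [Fintype V] (hV : Fintype.card V = N) (b : MvPolynomial V A)
    (hb : b.totalDegree ≤ 1) : P (aff R (Sys A V {b})) := by
  have h1 := h A hA V hV PUnit (fun _ => b) 0 (fun _ => hb) (by rw [totalDegree_zero]; omega)
  refine p_eq hP ?_ h1
  rw [Set.range_const, Ideal.span_insert_zero]

/-- a linear and a quadratic equation -/
lemma tl_two {N : ℕ} (h : TL K P N) (A : Type) [CommRing A] [Algebra R A] [Algebra.FiniteType R A]
    (hA : K A) (V : Type) [Fintype V] (hV : Fintype.card V = N) (b c : MvPolynomial V A)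
    (hb : b.totalDegree ≤ 1) (hc : c.totalDegree ≤ 2) : P (aff R (Sys A V {b, c})) := by
  have h1 := h A hA V hV PUnit (fun _ => b) c (fun _ => hb) hc
  refine p_eq hP ?_ h1
  rw [Set.range_const, Set.pair_comm]

/-- an equation which is linear in one variable -/
lemma tl_opt {N : ℕ} (h : TL K P N) (hK : ∀ (A : Type) [CommRing A] [Algebra R A]
    [Algebra.FiniteType R A], K A → P (aff R A)) (A : Type) [CommRing A] [Algebra R A]
    [Algebra.FiniteType R A] (hA : K A) (W : Type) [Fintype W] (hW : Fintype.card W = N)
    (b c : MvPolynomial W A) (hb : b.totalDegree ≤ 1) (hc : c.totalDegree ≤ 2) :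
    P (aff R (Sys A (Option W) {rename some b * X none + rename some c})) :=
  p_opt hP b c (hK A hA) (tl_one hP h A hA W hW b hb) (tl_two hP h A hA W hW b c hb hc)

/-- a sum of two squares -/
lemma two_sq {N : ℕ} (h : TL K P N) (hD : DoubleCovers P) (hB : Base K)
    (hK : ∀ (A : Type) [CommRing A] [Algebra R A] [Algebra.FiniteType R A], K A → P (aff R A))
    (A : Type) [CommRing A] [Algebra R A] [Algebra.FiniteType R A] (hA : K A) (W : Type)
    [Fintype W] (hW : Fintype.card W + 1 = N) {α i β j t : A} (hi : i * α = 1) (hj : j * β = 1)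
    (ht : t + t = 1) (f : MvPolynomial W A) (hf : f.totalDegree ≤ 2) :
    P (aff R (Sys A (Option (Option W)) {C α * xx A W ^ 2 + C β * yy A W ^ 2 +
      rename some (rename some f)})) := by
  -- `β = - α u`
  let u : A := -(i * β)
  have hu : IsUnit u := by
    refine IsUnit.of_mul_eq_one (-(α * j)) ?_
    linear_combination (i * α) * hj + hi
  set G : Set (MvPolynomial (Option (Option W)) A) := {C α * xx A W ^ 2 + C β * yy A W ^ 2 +
      rename some (rename some f)} with hG
  apply hD (Sys A (Option (Option W)) G) (cS R G u) (hu.map _)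
  have : Algebra.FiniteType R (Sq A u) := inferInstance
  refine iso_alg hP (sqS G u).symm ?_
  -- the root
  let s : Sq A u := AdjoinRoot.root _
  let ι : A →+* Sq A u := (sqI R u : A →+* Sq A u)
  have hs : s ^ 2 = ι u := sq_root (R := R) u
  obtain ⟨v, hv⟩ := hu
  have hv' : (↑v⁻¹ : A) * u = 1 := by
    have h1 := v.inv_mul
    rw [hv] at h1
    exact h1
  let s' : Sq A u := ι (↑v⁻¹) * s
  have hs' : s' * s = 1 := by
    have h1 : s' * s = ι (↑v⁻¹) * s ^ 2 := by
      change ι (↑v⁻¹) * s * s = _
      ring
    rw [h1, hs, ← map_mul, hv', map_one]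
  have hi' : ι i * ι α = 1 := by rw [← map_mul, hi, map_one]
  have ht' : ι t + ι t = 1 := by rw [← map_add, ht, map_one]
  have hβ : ι β = -(ι α * s ^ 2) := by
    have h2 : ι u = -(ι i * ι β) := by
      change ι (-(i * β)) = _
      simp only [map_neg, map_mul]
    rw [hs, h2]
    linear_combination (-ι β) * hi'
  have e1 : mapG ι G = {C (ι α) * xx (Sq A u) W ^ 2 + C (-(ι α * s ^ 2)) * yy (Sq A u) W ^ 2 +
      rename some (rename some (MvPolynomial.map ι f))} := by
    rw [mapG, hG, Set.image_singleton]
    simp only [map_add, map_mul, map_pow, map_C, map_X, map_rename, hβ]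
  change P (aff R (Sys (Sq A u) (Option (Option W)) (mapG ι G)))
  rw [e1]
  apply p_re hP (hypE (W := W) hi' hs' ht')
  rw [Set.image_singleton, hyp_eq hi' hs' ht']
  apply tl_opt hP h hK (Sq A u) (hB.sq A hA u) (Option W) (by rw [Fintype.card_option]; exact hW)
  · rw [← mul_one (X none : MvPolynomial (Option W) (Sq A u))]
    refine (totalDegree_mul _ _).trans ?_
    rw [totalDegree_one, add_zero]
    exact (totalDegree_monomial_le _ _).trans (by rw [Finsupp.sum_single_index] <;> rfl)
  · exact (totalDegree_rename_le _ _).trans ((deg_map ι f).trans hf)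

end

section

variable {R : Type} [CommRing R] {sep : Prop} {P : Sch R → Prop} (hP : Up sep P)
  {K : ∀ (A : Type) [CommRing A] [Algebra R A], Prop}

include hP

/-- the case of a unit -/
lemma quad_unit {N : ℕ} (h : TL K P N) (hD : DoubleCovers P) (hB : Base K)
    (hK : ∀ (A : Type) [CommRing A] [Algebra R A] [Algebra.FiniteType R A], K A → P (aff R A))
    (hT : ∀ (A : Type) [CommRing A] [Algebra R A], K A → ∃ t : A, t + t = 1)
    (A : Type) [CommRing A] [Algebra R A] [Algebra.FiniteType R A] (hA : K A) (W : Type)
    [Fintype W] (hW : Fintype.card W = N) {α i : A} (hi : i * α = 1) (b c : MvPolynomial W A)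
    (hb : b.totalDegree ≤ 1) (hc : c.totalDegree ≤ 2) :
    P (aff R (Sys A (Option W) {C α * X none ^ 2 + rename some b * X none + rename some c})) := by
  obtain ⟨t0, ht0⟩ := hT A hA
  have hsub : ∀ {B V : Type} [CommRing B] (a : B) (c b : MvPolynomial V B), c.totalDegree ≤ 2 →
      b.totalDegree ≤ 1 → (c - C a * b ^ 2).totalDegree ≤ 2 := by
    intro B V _ a c b hc hb
    refine (totalDegree_sub _ _).trans (max_le hc ?_)
    refine (totalDegree_mul _ _).trans ?_
    rw [totalDegree_C, zero_add]
    exact (totalDegree_pow _ _).trans (by omega)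
  apply p_re hP (shE (-(C (t0 * i) * b)))
  rw [Set.image_singleton, square hi ht0]
  set c' := c - C (t0 * t0 * i) * b ^ 2 with hc'
  have hcd : c'.totalDegree ≤ 2 := hsub _ c b hc hb
  clear_value c'
  rcases Nat.eq_zero_or_pos N with hN | hN
  · -- no further variables
    have : IsEmpty W := Fintype.card_eq_zero_iff.mp (by omega)
    obtain ⟨c0, rfl⟩ : ∃ c0, c' = C c0 := ⟨_, MvPolynomial.eq_C_of_isEmpty c'⟩
    rw [rename_C]
    have h3 : P (aff R (Sq A (-(i * c0)))) := hK _ (hB.sq A hA _)
    exact iso_alg hP (sqOne (R := R) (W := W) hi).symm h3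
  · obtain ⟨M, rfl⟩ : ∃ M, N = M + 1 := ⟨N - 1, by omega⟩
    obtain ⟨σ⟩ : Nonempty (W ≃ Option (Fin M)) := by
      refine ⟨Fintype.equivOfCardEq ?_⟩
      rw [hW, Fintype.card_option, Fintype.card_fin]
    apply p_re hP (renameEquiv A (Equiv.optionCongr σ))
    have e1 : renameEquiv A (Equiv.optionCongr σ) '' {C α * X none ^ 2 + rename some c'} =
        {C α * X none ^ 2 + rename some (rename σ c')} := by
      rw [Set.image_singleton]
      change {rename (Equiv.optionCongr σ) _} = _
      simp only [map_add, map_mul, map_pow, rename_C, rename_X, rename_rename]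
      rfl
    rw [e1]
    have hcd2 : (rename σ c').totalDegree ≤ 2 := (totalDegree_rename_le _ _).trans hcd
    obtain ⟨β, b2, c2, hb2, hc2, hq⟩ := deg_two hcd2
    rw [hq]
    -- exchange the two variables
    apply p_re hP (renameEquiv A (swO (Fin M)))
    have e2 : renameEquiv A (swO (Fin M)) '' {C α * X none ^ 2 + rename some (C β * X none ^ 2 +
        rename some b2 * X none + rename some c2)} =
        {C β * X none ^ 2 + rename some (rename some b2) * X none +
          rename some (C α * X none ^ 2 + rename some c2)} := by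
      rw [Set.image_singleton]
      change {rename (swO (Fin M)) _} = _
      simp only [map_add, map_mul, map_pow, rename_C, rename_X, swO_rename, swO_none, swO_some]
      congr 1
      ring
    rw [e2]
    apply p_split hP _ β
    · -- no square
      have := ft_quot (R := R) (Ideal.span {β})
      set B := A ⧸ Ideal.span {β}
      set ι : A →+* B := (Ideal.Quotient.mkₐ R (Ideal.span {β}) : A →+* B) with hι
      have h0 : ι β = 0 := Ideal.Quotient.eq_zero_iff_mem.mpr (Ideal.mem_span_singleton_self β)
      have e3 : mapG ι {C β * X none ^ 2 + rename some (rename some b2) * X none +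
          rename some (C α * X none ^ 2 + rename some c2)} =
          {rename some (rename some (MvPolynomial.map ι b2)) * X none +
            rename some (C (ι α) * X none ^ 2 + rename some (MvPolynomial.map ι c2))} := by
        rw [mapG, Set.image_singleton]
        simp only [map_add, map_mul, map_pow, map_C, map_X, map_rename, h0, C_0, zero_mul,
          zero_add]
      rw [e3]
      apply tl_opt hP h hK B (hB.quot A hA _) (Option (Fin M))
      · rw [Fintype.card_option, Fintype.card_fin]
      · exact (totalDegree_rename_le _ _).trans ((deg_map ι b2).trans hb2)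
      · refine (totalDegree_add _ _).trans (max_le (deg_CX2 _ _) ?_)
        exact (totalDegree_rename_le _ _).trans ((deg_map ι c2).trans hc2)
    · -- two squares
      have := ft_away (R := R) β
      set B := Localization.Away β
      set ι : A →+* B := (locA (R := R) β : A →+* B) with hι
      obtain ⟨u, hu⟩ := IsLocalization.Away.algebraMap_isUnit (S := Localization.Away β) β
      have h4 : (↑u⁻¹ : B) * ι β = 1 := by
        change (↑u⁻¹ : B) * algebraMap A (Localization.Away β) β = 1
        rw [← hu, Units.inv_mul]
      have h5 : ι i * ι α = 1 := by rw [← map_mul, hi, map_one]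
      have e3 : mapG ι {C β * X none ^ 2 + rename some (rename some b2) * X none +
          rename some (C α * X none ^ 2 + rename some c2)} =
          {C (ι β) * X none ^ 2 + rename some (rename some (MvPolynomial.map ι b2)) * X none +
            rename some (C (ι α) * X none ^ 2 + rename some (MvPolynomial.map ι c2))} := by
        rw [mapG, Set.image_singleton]
        simp only [map_add, map_mul, map_pow, map_C, map_X, map_rename]
      rw [e3]
      apply p_re hP (shE (-(C (ι t0 * ↑u⁻¹) *
        (rename some (MvPolynomial.map ι b2)))))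
      have htB : ι t0 + ι t0 = 1 := by rw [← map_add, ht0, map_one]
      rw [Set.image_singleton, square h4 htB]
      have e4 : (C (ι β) * X none ^ 2 + rename some (C (ι α) * X none ^ 2 +
          rename some (MvPolynomial.map ι c2) - C (ι t0 * ι t0 * ↑u⁻¹) *
            (rename some (MvPolynomial.map ι b2)) ^ 2) :
          MvPolynomial (Option (Option (Fin M))) B) =
          C (ι β) * xx B (Fin M) ^ 2 + C (ι α) * yy B (Fin M) ^ 2 +
            rename some (rename some (MvPolynomial.map ι c2 -
              C (ι t0 * ι t0 * ↑u⁻¹) * (MvPolynomial.map ι b2) ^ 2)) := by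
        simp only [map_add, map_sub, map_mul, map_pow, rename_C, rename_X]
        ring
      rw [e4]
      apply two_sq hP h hD hB hK B (hB.away A hA _) (Fin M) (by rw [Fintype.card_fin]) h4 h5 htB
      exact hsub _ _ _ ((deg_map ι c2).trans hc2) ((deg_map ι b2).trans hb2)

/-- one quadratic equation in `N + 1` variables -/
lemma tq_succ {N : ℕ} (h : TL K P N) (hD : DoubleCovers P) (hB : Base K)
    (hK : ∀ (A : Type) [CommRing A] [Algebra R A] [Algebra.FiniteType R A], K A → P (aff R A))
    (hT : ∀ (A : Type) [CommRing A] [Algebra R A], K A → ∃ t : A, t + t = 1) :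
    TQ K P (N + 1) := by
  intro A _ _ _ hA V _ hV q hq
  obtain ⟨σ⟩ : Nonempty (V ≃ Option (Fin N)) := by
    refine ⟨Fintype.equivOfCardEq ?_⟩
    rw [hV, Fintype.card_option, Fintype.card_fin]
  apply p_re hP (renameEquiv A σ)
  rw [Set.image_singleton]
  change P (aff R (Sys A (Option (Fin N)) {rename σ q}))
  have hq2 : (rename σ q).totalDegree ≤ 2 := (totalDegree_rename_le _ _).trans hq
  obtain ⟨α, b, c, hb, hc, he⟩ := deg_two hq2
  rw [he]
  apply p_split hP _ α
  · have := ft_quot (R := R) (Ideal.span {α})
    set B := A ⧸ Ideal.span {α}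
    set ι : A →+* B := (Ideal.Quotient.mkₐ R (Ideal.span {α}) : A →+* B) with hι
    have h0 : ι α = 0 := Ideal.Quotient.eq_zero_iff_mem.mpr (Ideal.mem_span_singleton_self α)
    have e3 : mapG ι {C α * X none ^ 2 + rename some b * X none + rename some c} =
        {rename some (MvPolynomial.map ι b) * X none + rename some (MvPolynomial.map ι c)} := by
      rw [mapG, Set.image_singleton]
      simp only [map_add, map_mul, map_pow, map_C, map_X, map_rename, h0, C_0, zero_mul,
        zero_add]
    rw [e3]
    exact tl_opt hP h hK B (hB.quot A hA _) (Fin N) (Fintype.card_fin N) _ _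
      ((deg_map ι b).trans hb) ((deg_map ι c).trans hc)
  · have := ft_away (R := R) α
    set B := Localization.Away α
    set ι : A →+* B := (locA (R := R) α : A →+* B) with hι
    obtain ⟨u, hu⟩ := IsLocalization.Away.algebraMap_isUnit (S := Localization.Away α) α
    have h4 : (↑u⁻¹ : B) * ι α = 1 := by
      change (↑u⁻¹ : B) * algebraMap A (Localization.Away α) α = 1
      rw [← hu, Units.inv_mul]
    have e3 : mapG ι {C α * X none ^ 2 + rename some b * X none + rename some c} =
        {C (ι α) * X none ^ 2 + rename some (MvPolynomial.map ι b) * X none +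
          rename some (MvPolynomial.map ι c)} := by
      rw [mapG, Set.image_singleton]
      simp only [map_add, map_mul, map_pow, map_C, map_X, map_rename]
    rw [e3]
    exact quad_unit hP h hD hB hK hT B (hB.away A hA _) (Fin N) (Fintype.card_fin N) h4 _ _
      ((deg_map ι b).trans hb) ((deg_map ι c).trans hc)

/-- one equation without variables -/
lemma tq_zero (hB : Base K)
    (hK : ∀ (A : Type) [CommRing A] [Algebra R A] [Algebra.FiniteType R A], K A → P (aff R A)) :
    TQ K P 0 := by
  intro A _ _ _ hA V _ hV q hq
  have : IsEmpty V := Fintype.card_eq_zero_iff.mp hV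
  obtain ⟨c0, rfl⟩ : ∃ c0, q = C c0 := ⟨_, MvPolynomial.eq_C_of_isEmpty q⟩
  have := ft_quot (R := R) (Ideal.span {c0})
  have h1 := p_const hP (V := V) (Ideal.span {c0}) (hK _ (hB.quot A hA _))
  refine p_eq hP ?_ h1
  apply le_antisymm
  · rw [Ideal.span_le]
    rintro _ ⟨a, ha, rfl⟩
    obtain ⟨c, rfl⟩ := Ideal.mem_span_singleton'.mp ha
    rw [C_mul]
    exact Ideal.mul_mem_left _ _ (Ideal.mem_span_singleton_self _)
  · rw [Ideal.span_singleton_le_iff_mem]
    exact Ideal.subset_span ⟨_, Ideal.mem_span_singleton_self _, rfl⟩

/-- elimination of a variable -/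
lemma elim_step {N : ℕ} (h : TL K P N) (A : Type) [CommRing A] [Algebra R A]
    [Algebra.FiniteType R A] (hA : K A) (W : Type) [Fintype W] (hW : Fintype.card W = N)
    (κ : Type) [Finite κ] (b : κ → MvPolynomial (Option W) A) (q : MvPolynomial (Option W) A)
    (hb : ∀ j, (b j).totalDegree ≤ 1) (hq : q.totalDegree ≤ 2) (j : κ) (i : A)
    (hi : i * coeff (Finsupp.single none 1) (b j) = 1) :
    P (aff R (Sys A (Option W) (insert q (Set.range b)))) := by
  obtain ⟨b0, hb0, he⟩ := deg_one (hb j)
  set t : MvPolynomial W A := -(C i * b0) with ht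
  have htd : t.totalDegree ≤ 1 := by
    rw [ht, totalDegree_neg]
    refine (totalDegree_mul _ _).trans ?_
    rw [totalDegree_C, zero_add]
    exact hb0
  have hmem : X none - rename some t ∈ Ideal.span (insert q (Set.range b)) := by
    have h1 : X none - rename some t = C i * b j := by
      rw [he, ht, map_neg, map_mul, rename_C, mul_add, ← mul_assoc, ← C_mul, hi, C_1]
      ring
    rw [h1]
    exact Ideal.mul_mem_left _ _ (Ideal.subset_span (Or.inr ⟨j, rfl⟩))
  have hw : ∀ o : Option W, (o.elim t X : MvPolynomial W A).totalDegree ≤ 1 := by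
    intro o
    rcases o with _ | w
    · exact htd
    · exact deg_X w
  refine iso_alg hP (elimE (R := R) _ t hmem).symm ?_
  have e1 : subst t '' (insert q (Set.range b)) =
      insert (subst t q) (Set.range fun j => subst t (b j)) := by
    rw [Set.image_insert_eq, ← Set.range_comp]
    rfl
  rw [e1]
  exact h A hA W hW κ _ _ (fun j => (deg_aeval _ hw _).trans (hb j)) ((deg_aeval _ hw _).trans hq)

/-- linear equations -/
lemma tl_of {N : ℕ} (hQ : TQ K P N) (hL : ∀ M, N = M + 1 → TL K P M) (hB : Base K) :
    TL K P N := by
  classical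
  intro A _ _ _ hA V _ hV κ _ b q hb hq
  -- induction on the number of linear terms
  suffices H : ∀ (m : ℕ) (A : Type) [CommRing A] [Algebra R A] [Algebra.FiniteType R A], K A →
      ∀ (b : κ → MvPolynomial V A) (q : MvPolynomial V A), (∀ j, (b j).totalDegree ≤ 1) →
      q.totalDegree ≤ 2 → Set.ncard {p : κ × V | coeff (Finsupp.single p.2 1) (b p.1) ≠ 0} ≤ m →
      P (aff R (Sys A V (insert q (Set.range b)))) from H _ A hA b q hb hq le_rfl
  intro m
  induction m with
  | zero =>
    intro A _ _ _ hA b q hb hq hm
    have h0 : ∀ j, b j = C (coeff 0 (b j)) := by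
      intro j
      apply deg_const (hb j)
      intro v
      by_contra hc
      have h1 : {p : κ × V | coeff (Finsupp.single p.2 1) (b p.1) ≠ 0} = ∅ :=
        (Set.ncard_eq_zero (Set.toFinite _)).mp (by omega)
      have h2 : (j, v) ∈ {p : κ × V | coeff (Finsupp.single p.2 1) (b p.1) ≠ 0} := hc
      rw [h1] at h2
      exact h2
    let I : Ideal A := Ideal.span (Set.range fun j => coeff 0 (b j))
    have := ft_quot (R := R) I
    have h1 : P (aff R (Sys A V (addI I {q}))) := by
      apply p_base hP
      rw [mapG, Set.image_singleton]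
      exact hQ _ (hB.quot A hA I) V hV _ ((deg_map _ q).trans hq)
    refine p_eq hP ?_ h1
    apply le_antisymm
    · rw [Ideal.span_le]
      rintro f (⟨a, ha, rfl⟩ | hf)
      · change C a ∈ Ideal.span (insert q (Set.range b))
        have h3 : I ≤ (Ideal.span (insert q (Set.range b))).comap C := by
          rw [Ideal.span_le]
          rintro _ ⟨j, rfl⟩
          change C (coeff 0 (b j)) ∈ Ideal.span (insert q (Set.range b))
          rw [← h0 j]
          exact Ideal.subset_span (Or.inr ⟨j, rfl⟩)
        exact h3 ha
      · exact Ideal.subset_span (Or.inl hf)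
    · rw [Ideal.span_le]
      rintro f (hf | ⟨j, rfl⟩)
      · exact Ideal.subset_span (Or.inr hf)
      · rw [h0 j]
        exact Ideal.subset_span (Or.inl ⟨_, Ideal.subset_span ⟨j, rfl⟩, rfl⟩)
  | succ m ih =>
    intro A _ _ _ hA b q hb hq hm
    by_cases hz : ∃ p : κ × V, coeff (Finsupp.single p.2 1) (b p.1) ≠ 0
    swap
    · apply ih A hA b q hb hq
      have h1 : {p : κ × V | coeff (Finsupp.single p.2 1) (b p.1) ≠ 0} = ∅ := by
        push Not at hz
        ext p
        simp only [Set.mem_ofPred_eq, Set.mem_empty_iff_false, iff_false, not_not]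
        exact hz p
      rw [h1, Set.ncard_empty]
      exact Nat.zero_le _
    obtain ⟨⟨j, v⟩, he⟩ := hz
    set e := coeff (Finsupp.single v 1) (b j) with hedef
    have hmap : ∀ {B : Type} [CommRing B] (ι : A →+* B), mapG ι (insert q (Set.range b)) =
        insert (MvPolynomial.map ι q) (Set.range fun j => MvPolynomial.map ι (b j)) := by
      intro B _ ι
      rw [mapG, Set.image_insert_eq, ← Set.range_comp]
      rfl
    apply p_split hP _ e
    · have := ft_quot (R := R) (Ideal.span {e})
      rw [hmap]
      apply ih _ (hB.quot A hA _) _ _ (fun j => (deg_map _ _).trans (hb j))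
        ((deg_map _ _).trans hq)
      have h1 : {p : κ × V | coeff (Finsupp.single p.2 1) (MvPolynomial.map
          (Ideal.Quotient.mkₐ R (Ideal.span {e}) : A →+* A ⧸ Ideal.span {e}) (b p.1)) ≠ 0} ⊂
          {p : κ × V | coeff (Finsupp.single p.2 1) (b p.1) ≠ 0} := by
        refine ⟨?_, ?_⟩
        · intro p hp hc
          apply hp
          rw [coeff_map, hc, map_zero]
        · intro hc
          have h2 : (j, v) ∈ {p : κ × V | coeff (Finsupp.single p.2 1) (b p.1) ≠ 0} := he
          have h3 := hc h2
          apply h3
          change coeff (Finsupp.single v 1) (MvPolynomial.map _ (b j)) = 0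
          rw [coeff_map, ← hedef]
          exact Ideal.Quotient.eq_zero_iff_mem.mpr (Ideal.mem_span_singleton_self e)
      have h2 := Set.ncard_lt_ncard h1 (Set.toFinite _)
      omega
    · have := ft_away (R := R) e
      rw [hmap]
      set B := Localization.Away e
      set ι : A →+* B := (locA (R := R) e : A →+* B) with hι
      obtain ⟨u, hu⟩ := IsLocalization.Away.algebraMap_isUnit (S := Localization.Away e) e
      have h4 : (↑u⁻¹ : B) * ι e = 1 := by
        change (↑u⁻¹ : B) * algebraMap A (Localization.Away e) e = 1
        rw [← hu, Units.inv_mul]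
      let W := {w : V // w ≠ v}
      have hW : Fintype.card W + 1 = Fintype.card V := by
        have h5 := Fintype.card_congr (Equiv.optionSubtypeNe v)
        rw [Fintype.card_option] at h5
        exact h5
      let σ : V ≃ Option W := (Equiv.optionSubtypeNe v).symm
      have hσ : σ v = none := by
        rw [Equiv.symm_apply_eq]
        rfl
      apply p_re hP (renameEquiv B σ)
      have e1 : renameEquiv B σ '' insert (MvPolynomial.map ι q)
          (Set.range fun j => MvPolynomial.map ι (b j)) =
          insert (rename σ (MvPolynomial.map ι q))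
            (Set.range fun j => rename σ (MvPolynomial.map ι (b j))) := by
        rw [Set.image_insert_eq, ← Set.range_comp]
        rfl
      rw [e1]
      apply elim_step hP (hL (Fintype.card W) (by omega)) B (hB.away A hA _) W rfl κ _ _
        (fun j => (totalDegree_rename_le _ _).trans ((deg_map _ _).trans (hb j)))
        ((totalDegree_rename_le _ _).trans ((deg_map _ _).trans hq)) j (↑u⁻¹)
      have h6 : coeff (Finsupp.single none 1) (rename σ (MvPolynomial.map ι (b j))) = ι e := by
        have h7 : (Finsupp.single (none : Option W) 1 : Option W →₀ ℕ) =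
            Finsupp.mapDomain σ (Finsupp.single v 1) := by
          rw [Finsupp.mapDomain_single, hσ]
        rw [h7, coeff_rename_mapDomain _ σ.injective, coeff_map]
      rw [h6]
      exact h4

/-- **One quadratic equation and linear equations.** -/
theorem tl_all (hD : DoubleCovers P) (hB : Base K)
    (hK : ∀ (A : Type) [CommRing A] [Algebra R A] [Algebra.FiniteType R A], K A → P (aff R A))
    (hT : ∀ (A : Type) [CommRing A] [Algebra R A], K A → ∃ t : A, t + t = 1) :
    ∀ N, TL K P N
  | 0 => tl_of hP (tq_zero hP hB hK) (fun M hM => absurd hM (by omega)) hB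
  | N + 1 => tl_of hP (tq_succ hP (tl_all hD hB hK hT N) hD hB hK hT)
      (fun M hM => by
        obtain rfl : N = M := by omega
        exact tl_all hD hB hK hT N) hB

end

section step

variable {R : Type} [CommRing R] {sep : Prop} {P : Sch R → Prop} (hP : Up sep P)

/-- no variables -/
lemma jou_zero (hP : Up sep P) {E : Type} [CommRing E] [Algebra R E] [Algebra.FiniteType R E]
    (hE : P (aff R E)) {κ : Type} [Fintype κ] [IsEmpty κ] (f : κ → E) :
    P (aff R (Sys E κ (JG f))) := by
  refine p_empty hP hE _ ?_
  rw [Ideal.Quotient.subsingleton_iff, Ideal.eq_top_iff_one]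
  have h1 : (∑ l, C (f l) * X l - 1 : MvPolynomial κ E) ∈ Ideal.span (JG f) :=
    Ideal.subset_span (Set.mem_singleton _)
  have h2 : (∑ l, C (f l) * X l - 1 : MvPolynomial κ E) = -1 := by
    rw [Finset.univ_eq_empty, Finset.sum_empty, zero_sub]
  rw [h2] at h1
  exact (Ideal.neg_mem_iff _).mp h1

/-- relabelling of the variables -/
lemma jou_equiv (hP : Up sep P) {E : Type} [CommRing E] [Algebra R E] [Algebra.FiniteType R E]
    {κ κ' : Type} [Fintype κ] [Fintype κ'] (σ : κ ≃ κ') (f : κ → E)
    (h : P (aff R (Sys E κ' (JG fun l => f (σ.symm l))))) : P (aff R (Sys E κ (JG f))) := by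
  apply p_re hP (renameEquiv E σ)
  have h1 : renameEquiv E σ '' JG f = JG fun l => f (σ.symm l) := by
    rw [JG, JG, Set.image_singleton]
    congr 1
    rw [map_sub, map_one, map_sum]
    congr 1
    rw [← Equiv.sum_comp σ]
    refine Finset.sum_congr rfl fun l _ => ?_
    rw [Equiv.symm_apply_apply, map_mul]
    change rename σ (C (f l)) * rename σ (X l) = _
    rw [rename_C, rename_X]
  rw [h1]
  exact h

include hP

/-- one more variable -/
lemma jou_step {E : Type} [CommRing E] [Algebra R E] [Algebra.FiniteType R E] {κ : Type}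
    [Fintype κ] (f : Option κ → E) (hE : P (aff R E))
    (h1 : P (aff R (Sys E κ (JG fun l => f (some l))))) (h2 : P (aff R (Sys E κ {ff f}))) :
    P (aff R (Sys E (Option κ) (JG f))) := by
  have hf1 : Algebra.FiniteType R (MvPolynomial κ E) :=
    Algebra.FiniteType.trans (S := E) inferInstance inferInstance
  have hf2 : Algebra.FiniteType R (MvPolynomial (Option κ) E) :=
    Algebra.FiniteType.trans (S := E) inferInstance inferInstance
  refine ring_total hP (xS (JG f) none) ?_ ?_
  · refine quot_mk hP (Ideal.span (JG f)) (X none) ?_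
    rw [← Ideal.span_union]
    change P (aff R (Sys E (Option κ) (JG f ∪ {X none})))
    have hn : X none - rename some (0 : MvPolynomial κ E) ∈
        Ideal.span (JG f ∪ {(X none : MvPolynomial (Option κ) E)}) := by
      rw [map_zero, sub_zero]
      exact Ideal.subset_span (Or.inr rfl)
    refine iso_alg hP (elimE (JG f ∪ {X none}) 0 hn).symm ?_
    refine p_eq hP ?_ h1
    rw [Set.image_union, Set.image_singleton, JG, JG, Set.image_singleton, map_sub, map_one,
      map_sum, Fintype.sum_option, aeval_X]
    have h3 : aeval (R := E) (fun o : Option κ => o.elim (0 : MvPolynomial κ E) X)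
        (C (f none) * X none) = 0 := by
      rw [map_mul, aeval_X]
      exact mul_zero _
    have h4 : ∀ l : κ, aeval (R := E) (fun o : Option κ => o.elim (0 : MvPolynomial κ E) X)
        (C (f (some l)) * X (some l)) = C (f (some l)) * X l := by
      intro l
      rw [map_mul, aeval_X, aeval_C]
      rfl
    rw [h3, zero_add, Finset.sum_congr rfl fun l _ => h4 l, Ideal.span_union]
    change _ = _ ⊔ Ideal.span {(0 : MvPolynomial κ E)}
    rw [Ideal.span_singleton_zero, sup_bot_eq]
  · have := ft_away (R := R) (ff f)
    exact iso_alg hP (jouE R f).symm (ring_open hP (ff f) h2 (p_poly hP κ hE))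

/-- the bundle over the complement of the system `f = 0` -/
lemma jou_all {E : Type} [CommRing E] [Algebra R E] [Algebra.FiniteType R E] (hE : P (aff R E))
    (Q : E → Prop) (m : ℕ) (H : ∀ (κ : Type) [Fintype κ], Fintype.card κ < m →
      ∀ f : Option κ → E, (∀ o, Q (f o)) → P (aff R (Sys E κ {ff f}))) :
    ∀ (N : ℕ), N ≤ m → ∀ (κ : Type) [Fintype κ], Fintype.card κ = N → ∀ f : κ → E,
      (∀ o, Q (f o)) → P (aff R (Sys E κ (JG f)))
  | 0, _, κ, _, hκ, f, _ => by
    have : IsEmpty κ := Fintype.card_eq_zero_iff.mp hκ
    exact jou_zero hP hE f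
  | N + 1, hN, κ, _, hκ, f, hf => by
    let σ : κ ≃ Option (Fin N) := Fintype.equivOfCardEq (by
      rw [hκ, Fintype.card_option, Fintype.card_fin])
    refine jou_equiv hP σ f ?_
    refine jou_step hP _ hE ?_ ?_
    · exact jou_all hE Q m H N (by omega) (Fin N) (Fintype.card_fin N) _ fun o => hf _
    · refine H (Fin N) (by rw [Fintype.card_fin]; omega) _ fun o => hf _

end step

end Pool.Agent.H91.QW
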