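import Pool.Agent.H91.L.W5h93_QD_Quad

/-!
# Properties closed under closed-open decompositions and products with the affine line
-/

set_option autoImplicit false

open CategoryTheory AlgebraicGeometry MvPolynomial Pool.Agent.Y116.UV Pool.Agent.Z125.UN
  Pool.Agent.W5h93.QD

namespace Pool.Agent.H91.QW

/-- The property `P` of schemes of finite type over `R` is closed under closed-open decompositions, and
it passes from an affine scheme to its product with the affine line. -/
structure Up {R : Type} [CommRing R] (sep : Prop) (P : Sch R → Prop) : Prop where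
  iso : ∀ {X Y : Sch R}, FT sep X → Nonempty (X ≅ Y) → P X → P Y
  total : ∀ {Z X U : Sch R} (i : Z ⟶ X) (j : U ⟶ X), FT sep X → IsTriple i j → P Z → P U → P X
  opened : ∀ {Z X U : Sch R} (i : Z ⟶ X) (j : U ⟶ X), FT sep X → IsTriple i j → P Z → P X → P U
  closed : ∀ {Z X U : Sch R} (i : Z ⟶ X) (j : U ⟶ X), FT sep X → IsTriple i j → P X → P U → P Z
  poly : ∀ (A : Type) [CommRing A] [Algebra R A] [Algebra.FiniteType R A], P (aff R A) →
    P (aff R (Polynomial A))

section basic

variable {R : Type} [CommRing R] {sep : Prop} {P : Sch R → Prop} (hP : Up sep P)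

include hP

lemma iso_alg {A B : Type} [CommRing A] [CommRing B] [Algebra R A] [Algebra R B]
    [Algebra.FiniteType R A] (e : A ≃ₐ[R] B) (h : P (aff R A)) : P (aff R B) :=
  hP.iso (ft_aff sep) ⟨(affIso e).symm⟩ h

variable {A : Type} [CommRing A] [Algebra R A] [Algebra.FiniteType R A]

lemma ring_total (w : A) (h1 : P (aff R (A ⧸ Ideal.span {w})))
    (h2 : P (aff R (Localization.Away w))) : P (aff R A) :=
  hP.total _ _ (ft_aff sep) (triple_away w) h1 h2

lemma ring_open (w : A) (h1 : P (aff R (A ⧸ Ideal.span {w}))) (h2 : P (aff R A)) :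
    P (aff R (Localization.Away w)) :=
  hP.opened _ _ (ft_aff sep) (triple_away w) h1 h2

lemma quot_ideal (I J : Ideal A) (h : P (aff R (A ⧸ (I ⊔ J)))) :
    P (aff R ((A ⧸ I) ⧸ Ideal.map (Ideal.Quotient.mkₐ R I) J)) :=
  iso_alg hP (DoubleQuot.quotQuotEquivQuotSupₐ R I J).symm h

lemma quot_mk (I : Ideal A) (a : A) (h : P (aff R (A ⧸ (I ⊔ Ideal.span {a})))) :
    P (aff R ((A ⧸ I) ⧸ Ideal.span {Ideal.Quotient.mk I a})) := by
  have h2 : Ideal.map (Ideal.Quotient.mkₐ R I) (Ideal.span {a}) =
      Ideal.span {Ideal.Quotient.mk I a} := by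
    rw [Ideal.map_span, Set.image_singleton]
    rfl
  rw [← h2]
  exact quot_ideal hP I _ h

lemma p_poly_fin (n : ℕ) (h : P (aff R A)) : P (aff R (MvPolynomial (Fin n) A)) := by
  induction n with
  | zero => exact iso_alg hP ((MvPolynomial.isEmptyAlgEquiv A (Fin 0)).restrictScalars R).symm h
  | succ n ih =>
    have h1 : Algebra.FiniteType R (MvPolynomial (Fin n) A) :=
      Algebra.FiniteType.trans (S := A) inferInstance inferInstance
    have h2 := hP.poly _ ih
    have h3 : Algebra.FiniteType R (Polynomial (MvPolynomial (Fin n) A)) :=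
      Algebra.FiniteType.trans (S := MvPolynomial (Fin n) A) inferInstance inferInstance
    exact iso_alg hP ((MvPolynomial.finSuccEquiv A n).restrictScalars R).symm h2

lemma p_poly (τ : Type) [Fintype τ] (h : P (aff R A)) : P (aff R (MvPolynomial τ A)) := by
  have : Algebra.FiniteType R (MvPolynomial (Fin (Fintype.card τ)) A) :=
    Algebra.FiniteType.trans (S := A) inferInstance inferInstance
  exact iso_alg hP ((renameEquiv A (Fintype.equivFin τ).symm).restrictScalars R)
    (p_poly_fin hP _ h)

/-- the empty scheme -/
lemma p_empty (h1 : P (aff R A)) (B : Type) [CommRing B] [Algebra R B] (hB : Subsingleton B) :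
    P (aff R B) := by
  have h2 : P (aff R (Localization.Away (1 : A))) := by
    have e := IsLocalization.atUnits A (Submonoid.powers (1 : A)) (S := Localization.Away (1 : A))
      (by rintro _ ⟨n, rfl⟩; simp)
    exact iso_alg hP (e.restrictScalars R) h1
  have h3 : P (aff R (A ⧸ Ideal.span {(1 : A)})) :=
    hP.closed _ _ (ft_aff sep) (triple_away (1 : A)) h1 h2
  have h4 : Subsingleton (A ⧸ Ideal.span {(1 : A)}) :=
    Ideal.Quotient.subsingleton_iff.mpr Ideal.span_singleton_one
  let e : (A ⧸ Ideal.span {(1 : A)}) ≃ₐ[R] B :=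
    AlgEquiv.ofRingEquiv (f := { toFun := fun _ => 0
                                 invFun := fun _ => 0
                                 left_inv := fun _ => Subsingleton.elim _ _
                                 right_inv := fun _ => Subsingleton.elim _ _
                                 map_mul' := fun _ _ => Subsingleton.elim _ _
                                 map_add' := fun _ _ => Subsingleton.elim _ _ })
      (fun _ => Subsingleton.elim _ _)
  exact iso_alg hP e h3

end basic

end Pool.Agent.H91.QW
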